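import Pool.Agent.Q121.SP.EnFam

/-!
# The local theorem, vector form, truncated energies of subsets, any characteristic
-/

namespace Pool.Agent.Q121.SP

open Pool.Agent.W277.UB Pool.Agent.W277.UG Pool.Agent.W277.UH Finset Polynomial
open Pool.Agent.Q41.SU Pool.Agent.Q41.SP

universe u

theorem lvP : S_lvP.{u} := by
  intro k Ω K _ _ _ _ _ _ _ _ _ hk ι hιk ord hι d hd p q hp hq hco P hP a ha
  classical
  have hdR : (2 : ℝ) ≤ d := by exact_mod_cast hd
  have hd1 : (0 : ℝ) < (d : ℝ) - 1 := by linarith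
  have hlog : ∀ x : K, x ≠ 0 → -Real.log ‖ι x‖ = ord x := by
    intro x hx
    rw [hι x hx, Real.log_exp, neg_neg]
  have hinj := ι.injective
  have hcoΩ : IsCoprime (p.map ι) (q.map ι) := by
    obtain ⟨u, w, h⟩ := hco
    refine ⟨u.map ι, w.map ι, ?_⟩
    rw [← Polynomial.map_mul, ← Polynomial.map_mul, ← Polynomial.map_add, h, Polynomial.map_one]
  obtain ⟨S₀, hF₀, hd₀, hR₀⟩ := exists_base d (p.map ι) (q.map ι)
    ((Polynomial.natDegree_map_le).trans hp)
    (by rw [Polynomial.natDegree_map_eq_of_injective hinj, hq]) (by omega) hcoΩ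
  rw [resultant_map_map] at hR₀
  set res := resultant q p d d with hres
  have hres0 : res ≠ 0 := by
    intro h
    rw [h, map_zero, norm_zero] at hR₀
    exact (Real.exp_pos _).ne' hR₀
  have hRes₀ : S₀.Res = ord res := by
    have h1 := congrArg Real.log hR₀
    rw [Real.log_exp] at h1
    have := hlog res hres0
    linarith
  have hrat : ∀ X : K × K, ∃ Y : K × K, S₀.F (vm ι X) = vm ι Y := by
    intro X
    refine ⟨(hev d p X, hev d q X), ?_⟩
    rw [hF₀]
    unfold bF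
    rw [hev_map, hev_map]
    rfl
  have hResK : ∀ (S : HS Ω) (U V : K × K) (s : K), wd U V ≠ 0 → s ≠ 0 →
      S.Res = S₀.Res - (S₀.d * ((S₀.d : ℝ) - 1)) * Real.log ‖ι (wd U V)‖ -
        2 * S₀.d * Real.log ‖ι s‖ →
      S.Res = (ord res : ℝ) + d * ((d : ℝ) - 1) * ord (wd U V) + 2 * d * ord s := by
    intro S U V s hUV hs h
    rw [h, hRes₀, hd₀]
    have e1 := hlog _ hUV
    have e2 := hlog _ hs
    have e1' : Real.log ‖ι (wd U V)‖ = -(ord (wd U V) : ℝ) := by linarith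
    have e2' : Real.log ‖ι s‖ = -(ord s : ℝ) := by linarith
    rw [e1', e2']
    ring
  have hint : ∀ S, Kr ι S₀ S → ∃ m : ℤ, S.Res = m := by
    rintro S ⟨U, V, s, hUV, hs, hdS, hF, hR⟩
    refine ⟨ord res + d * ((d : ℤ) - 1) * ord (wd U V) + 2 * d * ord s, ?_⟩
    rw [hResK S U V s hUV hs hR]
    push_cast
    ring
  obtain ⟨cc, B, hB0⟩ := exists_fam' (Ω := Ω) k hk
  set Zf : ℕ → K × K := fun i => (algebraMap k K (cc i), 1) with hZf
  have hB : ∀ i, B.b i = vm ι (Zf i) := by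
    intro i
    rw [hB0, hZf]
    unfold vm
    simp only [hιk, map_one]
  obtain ⟨S, R, hK, hgs, hSR, hmin⟩ := exists_minimal' B Zf hB hrat hint
  have hK' := hK
  obtain ⟨U, V, s, hUV, hs, hdS, hF, hResS⟩ := hK
  rw [hd₀] at hdS
  have hUVΩ : wd (vm ι U) (vm ι V) ≠ 0 := by
    rw [vm_wd]
    exact (map_ne_zero ι).mpr hUV
  have hR1 := hResK S U V s hUV hs hResS
  rw [hSR] at hR1
  have hz1 : ∀ z : K, giK U V (z, 1) ≠ 0 := by
    intro z h
    have h1 := gmK_giK hUV (z, 1)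
    rw [h] at h1
    unfold gmK at h1
    have := congrArg Prod.snd h1
    simp at this
  choose t X ht hX htX using fun z : K => exists_unitK ι (giK U V (z, 1)) (hz1 z)
  have hgX : ∀ z, t z • gmK U V (X z) = (z, 1) := by
    intro z
    rw [← gmK_smul, ← htX, gmK_giK hUV]
  set fz : K → K := fun z => p.eval z / q.eval z with hfz
  -- the action of F
  have hFX : ∀ z ∈ P, S.F (vm ι (X z)) =
      ι (s * (t z)⁻¹ ^ d * q.eval z * t (fz z)) • vm ι (X (fz z)) := by
    intro z hz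
    obtain ⟨hqz, _⟩ := hP z hz
    have e1 : gmK U V (X z) = (t z)⁻¹ • ((z, 1) : K × K) := by
      rw [← hgX z, smul_smul, inv_mul_cancel₀ (ht z), one_smul]
    have e2 : S₀.F (vm ι ((z, 1) : K × K)) = vm ι (q.eval z • ((fz z, 1) : K × K)) := by
      rw [hF₀]
      unfold bF
      rw [hev_map, hev_map, hev_one d p hp, hev_one d q hq.le]
      unfold vm
      simp only [hfz, Prod.smul_fst, Prod.smul_snd, smul_eq_mul, mul_one]
      rw [mul_div_cancel₀ _ hqz]
    rw [hF, vm_gm, e1, vm_smul, S₀.hom, e2, vm_smul, gi_smul, gi_smul, vm_gi, htX (fz z), vm_smul,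
      smul_smul, smul_smul, smul_smul, hd₀]
    congr 1
    rw [map_mul, map_mul, map_mul, map_pow]
  have hlam0 : ∀ z ∈ P, s * (t z)⁻¹ ^ d * q.eval z * t (fz z) ≠ 0 := by
    intro z hz
    exact mul_ne_zero (mul_ne_zero (mul_ne_zero hs (pow_ne_zero _ (inv_ne_zero (ht z))))
      (hP z hz).1) (ht _)
  -- additivity of ord through the norm
  have hord_mul : ∀ x y : K, x ≠ 0 → y ≠ 0 → (ord (x * y) : ℝ) = ord x + ord y := by
    intro x y hx hy
    rw [← hlog _ (mul_ne_zero hx hy), ← hlog x hx, ← hlog y hy, map_mul, norm_mul,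
      Real.log_mul (norm_ne_zero_iff.mpr ((map_ne_zero ι).mpr hx))
        (norm_ne_zero_iff.mpr ((map_ne_zero ι).mpr hy))]
    ring
  have hord_inv_pow : ∀ (x : K) (n : ℕ), x ≠ 0 → (ord (x⁻¹ ^ n) : ℝ) = -(n * ord x) := by
    intro x n hx
    rw [← hlog _ (pow_ne_zero _ (inv_ne_zero hx)), ← hlog x hx, map_pow, norm_pow, Real.log_pow,
      map_inv₀, norm_inv, Real.log_inv]
    try ring
  set A : K → ℝ := fun z => a z - ord (t z) + ord s / ((d : ℝ) - 1) with hA
  have hA1 : ∀ z ∈ P, (d : ℝ) * A z = -Real.log ‖S.F (vm ι (X z))‖ + A (fz z) := by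
    intro z hz
    rw [hFX z hz, norm_smul, hX, mul_one, hlog _ (hlam0 z hz),
      hord_mul _ _ (mul_ne_zero (mul_ne_zero hs (pow_ne_zero _ (inv_ne_zero (ht z))))
      (hP z hz).1) (ht _), hord_mul _ _ (mul_ne_zero hs (pow_ne_zero _ (inv_ne_zero (ht z))))
      (hP z hz).1, hord_mul _ _ hs (pow_ne_zero _ (inv_ne_zero (ht z))), hord_inv_pow _ _ (ht z)]
    have h1 := ha z hz
    simp only [hA]
    have e1 : (d : ℝ) * (a z - ord (t z) + ord s / ((d : ℝ) - 1)) =
        (d : ℝ) * a z - d * ord (t z) + ord s + ord s / ((d : ℝ) - 1) := by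
      field_simp
      ring
    rw [e1, h1]
    ring
  have hfP : ∀ z ∈ P, fz z ∈ P := fun z hz => (hP z hz).2
  -- iteration
  have hiter : ∀ (n : ℕ), ∀ z ∈ P, ∃ z' ∈ P, ∃ μ : Ω, S.F^[n] (vm ι (X z)) = μ • vm ι (X z') ∧
      μ ≠ 0 ∧ (d : ℝ) ^ n * A z = -Real.log ‖μ‖ + A z' := by
    intro n
    induction n with
    | zero =>
      intro z hz
      exact ⟨z, hz, 1, by simp, one_ne_zero, by simp⟩
    | succ n ih =>
      intro z hz
      obtain ⟨z', hz', μ, h1, h2, h3⟩ := ih z hz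
      have hl0 : ι (s * (t z')⁻¹ ^ d * q.eval z' * t (fz z')) ≠ 0 :=
        (map_ne_zero ι).mpr (hlam0 z' hz')
      refine ⟨fz z', hfP z' hz', μ ^ d * ι (s * (t z')⁻¹ ^ d * q.eval z' * t (fz z')), ?_,
        mul_ne_zero (pow_ne_zero _ h2) hl0, ?_⟩
      · rw [Function.iterate_succ_apply', h1, S.hom, hFX z' hz', smul_smul, hdS]
      · rw [norm_mul, norm_pow, Real.log_mul (pow_ne_zero _ (norm_ne_zero_iff.mpr h2))
          (norm_ne_zero_iff.mpr hl0), Real.log_pow]
        have h4 := hA1 z' hz'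
        rw [hFX z' hz', norm_smul, hX, mul_one] at h4
        rw [pow_succ]
        have : (d : ℝ) ^ n * d * A z = d * ((d : ℝ) ^ n * A z) := by ring
        rw [this, h3]
        linarith
  -- bounds
  have hSF1 : ∀ z, 0 ≤ -Real.log ‖S.F (vm ι (X z))‖ ∧ -Real.log ‖S.F (vm ι (X z))‖ ≤ R := by
    intro z
    constructor
    · have h1 := HS.le_gs (S := S) (hX z).le
      rw [hgs] at h1
      have := Real.log_nonpos (norm_nonneg _) h1
      linarith
    · have h1 := HS.lower B hgs.le (hX z)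
      have h2 := Real.log_le_log (Real.exp_pos _) h1
      rw [Real.log_exp, hSR] at h2
      linarith
  have hAb : ∀ z ∈ P, 0 ≤ A z ∧ A z ≤ R / ((d : ℝ) - 1) := by
    intro z hz
    have hne : P.Nonempty := ⟨z, hz⟩
    constructor
    · obtain ⟨z₀, hz₀, hm⟩ := Finset.exists_min_image P A hne
      have h1 := hA1 z₀ hz₀
      have h2 := hm _ (hfP z₀ hz₀)
      have h3 := (hSF1 z₀).1
      have h4 := hm z hz
      nlinarith
    · obtain ⟨z₀, hz₀, hm⟩ := Finset.exists_max_image P A hne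
      have h1 := hA1 z₀ hz₀
      have h2 := hm _ (hfP z₀ hz₀)
      have h3 := (hSF1 z₀).2
      have h4 := hm z hz
      refine h4.trans ?_
      rw [le_div_iff₀ hd1]
      nlinarith
  have hR0 : (0 : ℝ) ≤ R := Nat.cast_nonneg _
  -- distinct points
  have hww : ∀ z z' : K, z ≠ z' → wd (vm ι (X z)) (vm ι (X z')) ≠ 0 := by
    intro z z' hne h
    rw [vm_wd, map_eq_zero] at h
    have h1 := wd_gmK U V (X z) (X z')
    rw [h, mul_zero] at h1
    have h2 : wd (t z • gmK U V (X z)) (t z' • gmK U V (X z')) = 0 := by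
      rw [wd_smul_left, wd_smul_right, h1, mul_zero, mul_zero]
    rw [hgX, hgX] at h2
    unfold wd at h2
    simp only [mul_one, one_mul] at h2
    exact hne (sub_eq_zero.mp h2)
  refine ⟨U, V, s, R, t, X, A, hUV, hs, ?_, fun z => ⟨ht z, hX z, hgX z, rfl⟩, hAb, ?_, ?_⟩
  · have hdd : (d : ℝ) * ((d : ℝ) - 1) ≠ 0 := by positivity
    rw [hR1]
    field_simp
  · -- energy
    intro Y hYP n hn
    by_cases hPe : Y.Nonempty
    swap
    · rw [Finset.not_nonempty_iff_eq_empty] at hPe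
      rw [hPe]
      simp
    haveI : Nonempty {z // z ∈ Y} := ⟨⟨hPe.choose, hPe.choose_spec⟩⟩
    have hNpos : (0 : ℝ) < Y.card := by exact_mod_cast Finset.card_pos.mpr hPe
    set N : ℝ := (Y.card : ℝ) with hN
    set D : ℝ := (d : ℝ) ^ n with hD
    have hDpos : 0 < D := by positivity
    have hD1 : 1 ≤ D := one_le_pow₀ (by linarith)
    have hHd : (S.iter n).d = d ^ n := by rw [HS.iter_d, hdS]
    have hlogH : ∀ z : {z // z ∈ Y}, ∃ z' ∈ P, -Real.log ‖(S.iter n).F (vm ι (X z.1))‖ =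
        D * A z.1 - A z' := by
      intro z
      obtain ⟨z', hz', μ, h1, h2, h3⟩ := hiter n z.1 (hYP z.2)
      refine ⟨z', hz', ?_⟩
      rw [HS.iter_F, h1, norm_smul, hX, mul_one, hD, h3]
      ring
    have hgsn : Real.log (S.iter n).gs ≤ 0 := by
      obtain ⟨E, hE⟩ := HS.gs_attained (S := S.iter n) B
      obtain ⟨i, hi⟩ := Infinite.exists_notMem_finset E
      apply Real.log_nonpos (HS.gs_pos).le
      rw [← hE i hi, HS.iter_F]
      refine (HS.iter_le hgs n _).trans ?_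
      rw [B.unit, one_pow]
    have hen := energyT (ι := {z // z ∈ Y}) B (S.iter n) (fun z => vm ι (X z.1)) (fun z => hX z.1)
      (fun z z' hne => hww z.1 z'.1 fun h => hne (Subtype.ext h)) (D * (R / ((d : ℝ) - 1)))
      (by positivity) (by
        intro z
        obtain ⟨z', hz', h1⟩ := hlogH z
        rw [h1]
        have h2 := (hAb z.1 (hYP z.2)).2
        have h3 := (hAb z' hz').1
        have h4 : D * A z.1 ≤ D * (R / ((d : ℝ) - 1)) := mul_le_mul_of_nonneg_left h2 hDpos.le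
        linarith)
    rw [hHd, Fintype.card_coe, ← hN] at hen
    push_cast at hen
    rw [← hD] at hen
    set ρ := (R : ℝ) / (d * ((d : ℝ) - 1)) with hρ
    have hρ0 : 0 ≤ ρ := by positivity
    have h5 : (S.iter n).Res / D ^ 2 ≤ ρ := by
      have h6 := HS.iter_Res S n
      rw [hdS, hSR, ← hD] at h6
      have hdd : 0 < (d : ℝ) * ((d : ℝ) - 1) := by positivity
      have h7 : (S.iter n).Res = ρ * (D * (D - 1)) := by
        rw [hρ]
        field_simp
        linarith
      rw [h7, div_le_iff₀ (by positivity)]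
      nlinarith [mul_nonneg hρ0 hDpos.le]
    have h6 : ∑ z : {z // z ∈ Y}, Real.log ‖(S.iter n).F (vm ι (X z.1))‖ ≤
        -(D * ∑ z ∈ Y, A z) + N * (R / ((d : ℝ) - 1)) := by
      have : ∀ z : {z // z ∈ Y}, Real.log ‖(S.iter n).F (vm ι (X z.1))‖ ≤
          -(D * A z.1) + R / ((d : ℝ) - 1) := by
        intro z
        obtain ⟨z', hz', h1⟩ := hlogH z
        have := (hAb z' hz').2
        linarith
      refine (Finset.sum_le_sum fun z _ => this z).trans (le_of_eq ?_)
      rw [Finset.sum_add_distrib, Finset.sum_neg_distrib, ← Finset.mul_sum, Finset.sum_const,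
        Finset.card_univ, Fintype.card_coe, nsmul_eq_mul, ← hN]
      congr 3
      exact Finset.sum_coe_sort Y A
    have hTD : D * (R / ((d : ℝ) - 1)) ≤ D * R := by
      apply mul_le_mul_of_nonneg_left _ hDpos.le
      rw [div_le_iff₀ hd1]
      nlinarith
    have h7 : (∑ z : {z // z ∈ Y}, ∑ z' : {z // z ∈ Y}, if z = z' then 0 else
        min (-Real.log ‖wd (vm ι (X z.1)) (vm ι (X z'.1))‖) (D * (R / ((d : ℝ) - 1)))) ≤
        ∑ z ∈ Y, ∑ z' ∈ Y, if z = z' then 0 else
          min (-Real.log ‖wd (vm ι (X z)) (vm ι (X z'))‖) (D * R) := by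
      rw [← Finset.sum_coe_sort Y]
      apply Finset.sum_le_sum
      intro z _
      rw [← Finset.sum_coe_sort Y]
      apply Finset.sum_le_sum
      intro z' _
      by_cases h : z = z'
      · simp [h]
      · have h' : z.1 ≠ z'.1 := fun h' => h (Subtype.ext h')
        simp only [h, h', if_false]
        exact min_le_min le_rfl hTD
    have h7' := div_le_div_of_nonneg_right h7 (sq_nonneg N)
    set Ep := ∑ z ∈ Y, ∑ z' ∈ Y, (if z = z' then 0 else
      min (-Real.log ‖wd (vm ι (X z)) (vm ι (X z'))‖) (D * R)) with hEp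
    set SA := ∑ z ∈ Y, A z with hSA
    have hSA0 : 0 ≤ SA := Finset.sum_nonneg fun z hz => (hAb z (hYP hz)).1
    have h8 : ∑ z ∈ Y, ∑ z' ∈ Y, (if z = z' then 0 else
          (min (-Real.log ‖wd (vm ι (X z)) (vm ι (X z'))‖) (D * R) - A z - A z' + ρ)) =
        Ep - 2 * (N - 1) * SA + N * (N - 1) * ρ := by
      have e1 : ∀ z ∈ Y, ∀ z' ∈ Y, (if z = z' then 0 else
          (min (-Real.log ‖wd (vm ι (X z)) (vm ι (X z'))‖) (D * R) - A z - A z' + ρ)) =
          (if z = z' then 0 else min (-Real.log ‖wd (vm ι (X z)) (vm ι (X z'))‖) (D * R)) +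
          ((-A z - A z' + ρ) - if z = z' then (-A z - A z' + ρ) else 0) := by
        intro z _ z' _
        by_cases h : z = z' <;> simp [h] <;> ring
      rw [Finset.sum_congr rfl fun z hz => Finset.sum_congr rfl fun z' hz' => e1 z hz z' hz']
      simp only [Finset.sum_add_distrib, Finset.sum_sub_distrib, Finset.sum_neg_distrib,
        Finset.sum_ite_eq, Finset.sum_const, nsmul_eq_mul]
      rw [← hEp, ← Finset.mul_sum, ← hSA, ← hN]
      have e2 : ∑ z ∈ Y, (if z ∈ Y then -A z - A z + ρ else 0) = -2 * SA + N * ρ := by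
        rw [Finset.sum_congr rfl fun z hz => if_pos hz, Finset.sum_add_distrib,
          Finset.sum_sub_distrib, Finset.sum_neg_distrib, Finset.sum_const, nsmul_eq_mul, ← hSA,
          ← hN]
        ring
      rw [e2]
      ring
    rw [h8]
    -- final computation
    have h9 : 2 / (N * D) * ∑ z : {z // z ∈ Y}, Real.log ‖(S.iter n).F (vm ι (X z.1))‖ ≤
        2 / (N * D) * (-(D * SA) + N * (R / ((d : ℝ) - 1))) :=
      mul_le_mul_of_nonneg_left h6 (by positivity)
    have h10 : 0 ≤ Ep / N ^ 2 + D * (R / ((d : ℝ) - 1)) / N +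
        2 / (N * D) * (-(D * SA) + N * (R / ((d : ℝ) - 1))) + ρ := by linarith
    have h11 := mul_nonneg (sq_nonneg N) h10
    have h12 : N ^ 2 * (Ep / N ^ 2 + D * (R / ((d : ℝ) - 1)) / N +
        2 / (N * D) * (-(D * SA) + N * (R / ((d : ℝ) - 1))) + ρ) =
        Ep + N * (D * (R / ((d : ℝ) - 1))) - 2 * N * SA +
          2 * N ^ 2 * (R / ((d : ℝ) - 1)) / D + N ^ 2 * ρ := by
      field_simp
      ring
    rw [h12] at h11
    have hRd : R / ((d : ℝ) - 1) ≤ R := by
      rw [div_le_iff₀ hd1]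
      nlinarith
    have hND : D ^ 2 ≤ N := by
      have : D ^ 2 = (d : ℝ) ^ (2 * n) := by rw [hD, ← pow_mul, mul_comm]
      rw [this]
      exact hn
    have h13 : N * (D * (R / ((d : ℝ) - 1))) ≤ N ^ 2 * R / D := by
      rw [le_div_iff₀ hDpos]
      have e1 : N * (D * (R / ((d : ℝ) - 1))) * D = N * (R / ((d : ℝ) - 1)) * D ^ 2 := by ring
      rw [e1]
      have e2 : N * (R / ((d : ℝ) - 1)) * D ^ 2 ≤ N * R * N := by
        apply mul_le_mul _ hND (by positivity) (by positivity)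
        exact mul_le_mul_of_nonneg_left hRd hNpos.le
      calc _ ≤ N * R * N := e2
        _ = N ^ 2 * R := by ring
    have h14 : 2 * N ^ 2 * (R / ((d : ℝ) - 1)) / D ≤ 2 * N ^ 2 * R / D := by
      apply div_le_div_of_nonneg_right _ hDpos.le
      exact mul_le_mul_of_nonneg_left hRd (by positivity)
    have hρR : ρ ≤ R := by
      rw [hρ, div_le_iff₀ (by positivity)]
      have : (1 : ℝ) ≤ d * ((d : ℝ) - 1) := by nlinarith
      nlinarith
    have h15 : N * ρ ≤ N ^ 2 * R / D := by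
      rw [le_div_iff₀ hDpos]
      have e2 : N * ρ * D ≤ N * R * N := by
        apply mul_le_mul _ _ hDpos.le (by positivity)
        · exact mul_le_mul_of_nonneg_left hρR hNpos.le
        · nlinarith
      calc _ ≤ N * R * N := e2
        _ = N ^ 2 * R := by ring
    have h16 : 4 * N ^ 2 * R / D = N ^ 2 * R / D + 2 * N ^ 2 * R / D + N ^ 2 * R / D := by ring
    rw [h16]
    nlinarith
  · -- colours
    intro hR1'
    have hRpos : (1 : ℝ) ≤ R := by exact_mod_cast hR1'
    obtain ⟨c₁, η₁, h₁⟩ := (S.iter 6).roots (0, 1) norm_e2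
    obtain ⟨c₂, η₂, h₂⟩ := (S.iter 6).roots (1, 0) norm_e1
    have hHd : (S.iter 6).d = d ^ 6 := by rw [HS.iter_d, hdS]
    have hdpos : 0 < (S.iter 6).d := (S.iter 6).hd
    haveI : Nonempty (Fin (S.iter 6).d) := ⟨⟨0, hdpos⟩⟩
    have hnear : ∀ z : K, ∃ i : Fin (S.iter 6).d ⊕ Fin (S.iter 6).d,
        ∀ j, ‖wd (vm ι (X z)) (Sum.elim η₁ η₂ i)‖ ≤ ‖wd (vm ι (X z)) (Sum.elim η₁ η₂ j)‖ := by
      intro z
      obtain ⟨i, _, hi⟩ := Finset.exists_min_image
        (Finset.univ : Finset (Fin (S.iter 6).d ⊕ Fin (S.iter 6).d))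
        (fun i => ‖wd (vm ι (X z)) (Sum.elim η₁ η₂ i)‖) Finset.univ_nonempty
      exact ⟨i, fun j => hi j (Finset.mem_univ j)⟩
    choose χ₁ hχ₁ using hnear
    set wb : ℝ := R / (16 * d * (d + 1)) with hwb
    have hwbpos : 0 < wb := by positivity
    set b : ℕ := 16 * d * (d + 1) + 1 with hb
    set χ' : K → (Fin (S.iter 6).d ⊕ Fin (S.iter 6).d) × Fin b := fun z =>
      (χ₁ z, ⟨min ⌊A z / wb⌋₊ (16 * d * (d + 1)), by omega⟩) with hχ'
    have hcard : Fintype.card ((Fin (S.iter 6).d ⊕ Fin (S.iter 6).d) × Fin b) = q₀ d := by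
      simp only [Fintype.card_prod, Fintype.card_sum, Fintype.card_fin]
      rw [hHd]
      rfl
    refine ⟨fun z => Fintype.equivFinOfCardEq hcard (χ' z), ?_⟩
    intro z hz z' hz' hne hχ
    have hχe : χ' z = χ' z' := (Fintype.equivFinOfCardEq hcard).injective hχ
    have hc1 : χ₁ z = χ₁ z' := congrArg Prod.fst hχe
    have hc2 : min ⌊A z / wb⌋₊ (16 * d * (d + 1)) = min ⌊A z' / wb⌋₊ (16 * d * (d + 1)) := by
      have := congrArg Prod.snd hχe
      exact congrArg Fin.val this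
    have hfl : ∀ y ∈ P, ⌊A y / wb⌋₊ ≤ 16 * d * (d + 1) := by
      intro y hy
      have h1 : A y / wb ≤ ((16 * d * (d + 1) : ℕ) : ℝ) := by
        rw [div_le_iff₀ hwbpos, hwb]
        push_cast
        have h2 := (hAb y hy).2
        have h3 : R / ((d : ℝ) - 1) ≤ R := by
          rw [div_le_iff₀ hd1]
          nlinarith
        have h4 : 16 * (d : ℝ) * (d + 1) * (R / (16 * d * (d + 1))) = R := by field_simp
        rw [h4]
        linarith
      calc ⌊A y / wb⌋₊ ≤ ⌊((16 * d * (d + 1) : ℕ) : ℝ)⌋₊ := Nat.floor_mono h1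
        _ = _ := Nat.floor_natCast _
    rw [min_eq_left (hfl z hz), min_eq_left (hfl z' hz')] at hc2
    have hAA : ∀ y y', y ∈ P → y' ∈ P → ⌊A y / wb⌋₊ = ⌊A y' / wb⌋₊ → A y - A y' ≤ wb := by
      intro y y' hy hy' h
      have h1 := Nat.floor_le (div_nonneg (hAb y' hy').1 hwbpos.le)
      have h2 := Nat.lt_floor_add_one (A y / wb)
      rw [← h] at h1
      rw [le_div_iff₀ hwbpos] at h1
      rw [div_lt_iff₀ hwbpos] at h2
      nlinarith
    have hpair : ∀ y y', y ∈ P → y' ∈ P → y ≠ y' → χ₁ y = χ₁ y' →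
        ‖wd (vm ι (X y')) (Sum.elim η₁ η₂ (χ₁ y))‖ ≤ ‖wd (vm ι (X y)) (Sum.elim η₁ η₂ (χ₁ y))‖ →
        (R : ℝ) / (4 * d * (d + 1)) ≤ -Real.log ‖wd (vm ι (X y)) (vm ι (X y'))‖ - 2 * A y +
          (R : ℝ) / (d * ((d : ℝ) - 1)) := by
      intro y y' hy hy' hyy hχy hle
      have hw := hww y y' hyy
      have hroot1 : ∀ i, ‖Sum.elim η₁ η₂ i‖ = 1 := by
        rintro (i | i)
        · exact h₁.2.1 i
        · exact h₂.2.1 i
      have hmaxw : ‖wd (vm ι (X y)) (vm ι (X y'))‖ ≤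
          ‖wd (vm ι (X y)) (Sum.elim η₁ η₂ (χ₁ y))‖ := by
        refine (wd_ultra (hX y) (hX y') (hroot1 (χ₁ y))).trans (max_le le_rfl ?_)
        rw [wd_comm, norm_neg]
        exact hle
      obtain ⟨s₂, hs₂, hg₂⟩ := exists_scale' B Zf hB hrat hK' hw
      obtain ⟨y'', hy'', μ, hμ1, hμ2, hμ3⟩ := hiter 6 y hy
      have hcp := HS.close_pair B hgs (by rw [hdS]; exact hd) 6 (c₁ := c₁) (c₂ := c₂) h₁ h₂ (hX y)
        (hX y') hw (fun l => hmaxw.trans (hχ₁ y (Sum.inl l)))
        (fun l => hmaxw.trans (hχ₁ y (Sum.inr l))) (ι s₂) hs₂ hg₂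
        (hmin _ (Kr_conj hK' hw s₂ hs₂) hg₂) (A y) (A y'') (by
          rw [hdS, hμ1, norm_smul, hX, mul_one]
          exact hμ3) (by
          rw [hdS, hSR]
          exact (hAb y'' hy'').2)
      rw [hdS, hSR] at hcp
      refine le_trans ?_ hcp
      have hd6 : (8 : ℝ) * d * (d + 1) ≤ (d : ℝ) ^ 6 := by
        have h2 : (2 : ℝ) ^ 4 ≤ (d : ℝ) ^ 4 := pow_le_pow_left₀ (by norm_num) hdR 4
        have h3 : (d : ℝ) ^ 6 = (d : ℝ) ^ 4 * d ^ 2 := by ring
        rw [h3]
        nlinarith [sq_nonneg (d : ℝ)]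
      have e1 : ((d : ℝ) - 1) / (2 * (d + 1)) * (R / (d * (d - 1))) = R / (2 * d * (d + 1)) := by
        field_simp
      rw [e1]
      have e2 : 2 * (R : ℝ) / ((d - 1) * (d : ℝ) ^ 6) ≤ R / (4 * d * (d + 1)) := by
        rw [div_le_div_iff₀ (by positivity) (by positivity)]
        have h4 : (4 : ℝ) * d * (d + 1) * 2 ≤ (d - 1) * (d : ℝ) ^ 6 := by
          have h5 : 0 < (d : ℝ) ^ 6 := by positivity
          have h6 : (d : ℝ) ^ 6 ≤ (d - 1) * (d : ℝ) ^ 6 := by nlinarith
          linarith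
        nlinarith [mul_le_mul_of_nonneg_left h4 hR0]
      have e3 : (R : ℝ) / (2 * d * (d + 1)) = R / (4 * d * (d + 1)) + R / (4 * d * (d + 1)) := by
        field_simp
        ring
      rw [e3]
      linarith
    have e8 : (R : ℝ) / (8 * d * (d + 1)) = R / (4 * d * (d + 1)) - 2 * wb := by
      rw [hwb]
      field_simp
      ring
    rcases le_total ‖wd (vm ι (X z')) (Sum.elim η₁ η₂ (χ₁ z))‖
      ‖wd (vm ι (X z)) (Sum.elim η₁ η₂ (χ₁ z))‖ with hle | hle
    · have h1 := hpair z z' hz hz' hne hc1 hle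
      rw [e8]
      linarith
    · have h1 := hpair z' z hz' hz (Ne.symm hne) hc1.symm (by rw [← hc1]; exact hle)
      rw [wd_comm, norm_neg] at h1
      have h2 := hAA z z' hz hz' hc2
      rw [e8]
      linarith

end Pool.Agent.Q121.SP
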