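import Pool.Agent.Q41.SP.Stm2

/-!
# (L4) Divisible cross differences
-/

namespace Pool.Agent.Q121.SP

open Finset
open Pool.Agent.Q41.SU (cnt)
open Pool.Agent.Q41.SP

theorem sum_erase_eq {J : Type} [Fintype J] [DecidableEq J] (o : J → J → ℤ) :
    ∑ l, ∑ m ∈ univ.erase l, o l m = ∑ x ∈ (univ : Finset J).offDiag, o x.1 x.2 := by
  rw [Finset.sum_sigma']
  refine Finset.sum_nbij' (fun x => (x.1, x.2)) (fun x => ⟨x.1, x.2⟩) ?_ ?_ ?_ ?_ ?_
  · rintro ⟨a, b⟩ h
    simp only [mem_sigma, mem_univ, mem_erase, true_and, and_true] at h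
    simp only [mem_offDiag, mem_univ, true_and]
    exact fun h' => h h'.symm
  · rintro ⟨a, b⟩ h
    simp only [mem_offDiag, mem_univ, true_and] at h
    simp only [mem_sigma, mem_univ, mem_erase, true_and, and_true]
    exact fun h' => h h'.symm
  · rintro ⟨a, b⟩ _
    rfl
  · rintro ⟨a, b⟩ _
    rfl
  · rintro ⟨a, b⟩ _
    rfl

theorem quad : S_quad := by
  intro J _ _ o hsym hnn hult L hL hdiv hcnt hcard
  have hL' : (1 : ℤ) ≤ L := by exact_mod_cast hL
  -- the class of `l`
  set C : J → Finset J := fun l => univ.filter fun m => m = l ∨ (1 : ℤ) ≤ o l m with hC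
  have hmem : ∀ l m, m ∈ C l ↔ (m = l ∨ (1 : ℤ) ≤ o l m) := by
    intro l m
    simp [hC]
  have hcntC : ∀ l, 2 * (C l).card ≤ Fintype.card J := by
    intro l
    have := hcnt l
    unfold cnt at this
    simpa [hC] using this
  -- different classes
  have hzero : ∀ l m, m ∉ C l → o l m = 0 := by
    intro l m h
    rw [hmem] at h
    push Not at h
    have h1 := hnn l m (fun e => h.1 e.symm)
    omega
  have hsymC : ∀ l m, m ∈ C l → l ∈ C m := by
    intro l m h
    rw [hmem] at h ⊢
    rcases h with h | h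
    · exact Or.inl h.symm
    · exact Or.inr (by rw [hsym]; exact h)
  have htr : ∀ l m n, m ∈ C l → n ∈ C m → n ∈ C l := by
    intro l m n h1 h2
    rw [hmem] at h1 h2 ⊢
    by_cases hlm : m = l
    · rw [hlm] at h2
      exact h2
    by_cases hmn : n = m
    · rw [hmn]
      exact h1
    by_cases hln : n = l
    · exact Or.inl hln
    · right
      have h1' : 1 ≤ o l m := h1.resolve_left hlm
      have h2' : 1 ≤ o m n := h2.resolve_left hmn
      have := hult l m n (fun e => hlm e.symm) (fun e => hmn e.symm) (fun e => hln e.symm)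
      exact le_trans (le_min h1' h2') this
  rw [sum_erase_eq]
  set CP := (univ.filter fun x : J × J => x.1 ≠ x.2 ∧ 1 ≤ o x.1 x.2) with hCP
  have hCPsub : CP ⊆ (univ : Finset J).offDiag := by
    intro x hx
    simp only [hCP, mem_filter, mem_univ, true_and] at hx
    simp only [mem_offDiag, mem_univ, true_and]
    exact hx.1
  have hnn' : ∀ x ∈ (univ : Finset J).offDiag, 0 ≤ o x.1 x.2 := by
    intro x hx
    simp only [mem_offDiag, mem_univ, true_and] at hx
    exact hnn _ _ hx
  have hsumnn : 0 ≤ ∑ x ∈ (univ : Finset J).offDiag, o x.1 x.2 := Finset.sum_nonneg hnn'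
  by_cases hA : ∀ a c, c ∉ C a → ∃ e, e ∉ C a ∧ e ∉ C c
  · -- at least three classes
    have hbig : ∀ x ∈ CP, (L : ℤ) ≤ o x.1 x.2 := by
      rintro ⟨a, b⟩ hx
      simp only [hCP, mem_filter, mem_univ, true_and] at hx
      obtain ⟨hab, hx1⟩ := hx
      have hbC : b ∈ C a := by
        rw [hmem]
        exact Or.inr hx1
      have hex : ∃ c, c ∉ C a := by
        by_contra hcon
        push Not at hcon
        have h1 : C a = univ := Finset.eq_univ_iff_forall.mpr hcon
        have h2 := hcntC a
        rw [h1, Finset.card_univ] at h2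
        omega
      obtain ⟨c, hc⟩ := hex
      obtain ⟨e, he1, he2⟩ := hA a c hc
      have hac : a ≠ c := by
        rintro rfl
        exact hc ((hmem _ _).mpr (Or.inl rfl))
      have hae : a ≠ e := by
        rintro rfl
        exact he1 ((hmem _ _).mpr (Or.inl rfl))
      have hbc : b ≠ c := by
        rintro rfl
        exact hc hbC
      have hbe : b ≠ e := by
        rintro rfl
        exact he1 hbC
      have hce : c ≠ e := by
        rintro rfl
        exact he2 ((hmem _ _).mpr (Or.inl rfl))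
      have h3 := hdiv a b c e hab hac hae hbc hbe hce
      have hbe' : e ∉ C b := fun h => he1 (htr a b e hbC h)
      rw [hzero c e he2, hzero a c hc, hzero b e hbe'] at h3
      simp only [add_zero, sub_zero] at h3
      exact Int.le_of_dvd (lt_of_lt_of_le zero_lt_one hx1) h3
    have h1 : (CP.card : ℤ) * L ≤ ∑ x ∈ CP, o x.1 x.2 := by
      have := Finset.card_nsmul_le_sum CP (fun x => o x.1 x.2) (L : ℤ) hbig
      simpa [nsmul_eq_mul] using this
    have h2 : ∑ x ∈ CP, o x.1 x.2 ≤ ∑ x ∈ (univ : Finset J).offDiag, o x.1 x.2 :=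
      Finset.sum_le_sum_of_subset_of_nonneg hCPsub (fun x hx _ => hnn' x hx)
    nlinarith
  · -- exactly two classes
    push Not at hA
    obtain ⟨a, c, hc, hall⟩ := hA
    set X := C a with hX
    set Y := C c with hY
    have hcov : ∀ e, e ∈ X ∨ e ∈ Y := by
      intro e
      by_cases h : e ∈ X
      · exact Or.inl h
      · exact Or.inr (hall e h)
    have hdisj : Disjoint X Y := by
      rw [Finset.disjoint_left]
      intro e h1 h2
      exact hc (htr a e c h1 (hsymC _ _ h2))
    have hun : X ∪ Y = univ := by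
      apply Finset.eq_univ_iff_forall.mpr
      intro e
      exact Finset.mem_union.mpr (hcov e)
    have hcard2 : X.card + Y.card = Fintype.card J := by
      rw [← Finset.card_union_of_disjoint hdisj, hun, Finset.card_univ]
    have hcX := hcntC a
    have hcY := hcntC c
    rw [← hX] at hcX
    rw [← hY] at hcY
    have hXY : X.card = Y.card := by omega
    have hX2 : 2 ≤ X.card := by omega
    -- cross pairs
    have hcross : ∀ x ∈ X, ∀ y ∈ Y, o x y = 0 := by
      intro x hx y hy
      apply hzero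
      intro h
      have h1 : y ∈ X := htr a x y hx h
      exact (Finset.disjoint_left.mp hdisj) h1 hy
    have hneXY : ∀ x ∈ X, ∀ y ∈ Y, x ≠ y := by
      rintro x hx y hy rfl
      exact (Finset.disjoint_left.mp hdisj) hx hy
    have hinX : ∀ x ∈ X, ∀ x' ∈ X, x ≠ x' → 1 ≤ o x x' := by
      intro x hx x' hx' hne
      have h1 : x' ∈ C x := htr x a x' (hsymC _ _ hx) hx'
      rw [hmem] at h1
      exact h1.resolve_left (fun e => hne e.symm)
    have hinY : ∀ x ∈ Y, ∀ x' ∈ Y, x ≠ x' → 1 ≤ o x x' := by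
      intro x hx x' hx' hne
      have h1 : x' ∈ C x := htr x c x' (hsymC _ _ hx) hx'
      rw [hmem] at h1
      exact h1.resolve_left (fun e => hne e.symm)
    have hkey : ∀ x ∈ X, ∀ x' ∈ X, x ≠ x' → ∀ y ∈ Y, ∀ y' ∈ Y, y ≠ y' →
        (L : ℤ) ≤ o x x' + o y y' := by
      intro x hx x' hx' hne y hy y' hy' hne'
      have h3 := hdiv x x' y y' hne (hneXY x hx y hy) (hneXY x hx y' hy') (hneXY x' hx' y hy)
        (hneXY x' hx' y' hy') hne'
      rw [hcross x hx y hy, hcross x' hx' y' hy'] at h3
      simp only [sub_zero] at h3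
      have h4 := hinX x hx x' hx' hne
      have h5 := hinY y hy y' hy' hne'
      exact Int.le_of_dvd (by omega) h3
    -- the close pairs
    have hCPc : CP ⊆ X.offDiag ∪ Y.offDiag := by
      rintro ⟨x, x'⟩ hx
      simp only [hCP, mem_filter, mem_univ, true_and] at hx
      obtain ⟨hne, h1⟩ := hx
      rw [Finset.mem_union, Finset.mem_offDiag, Finset.mem_offDiag]
      have hx' : x' ∈ C x := (hmem _ _).mpr (Or.inr h1)
      rcases hcov x with h | h
      · left
        exact ⟨h, htr a x x' h hx', hne⟩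
      · right
        exact ⟨h, htr c x x' h hx', hne⟩
    have hCPcard : CP.card ≤ 2 * (X.card * X.card - X.card) := by
      calc CP.card ≤ (X.offDiag ∪ Y.offDiag).card := Finset.card_le_card hCPc
        _ ≤ X.offDiag.card + Y.offDiag.card := Finset.card_union_le _ _
        _ = 2 * (X.card * X.card - X.card) := by
          rw [Finset.offDiag_card, Finset.offDiag_card, ← hXY]
          ring
    -- one class has large orders
    have hlarge : ∃ Z : Finset J, Z.card = X.card ∧
        ∀ z ∈ Z, ∀ z' ∈ Z, z ≠ z' → (L : ℤ) ≤ 2 * o z z' := by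
      by_cases h : ∀ z ∈ X, ∀ z' ∈ X, z ≠ z' → (L : ℤ) ≤ 2 * o z z'
      · exact ⟨X, rfl, h⟩
      · push Not at h
        obtain ⟨x, hx, x', hx', hne, hlt⟩ := h
        refine ⟨Y, hXY.symm, fun z hz z' hz' hne' => ?_⟩
        have := hkey x hx x' hx' hne z hz z' hz' hne'
        omega
    obtain ⟨Z, hZc, hZ⟩ := hlarge
    have hsub : Z.offDiag ⊆ (univ : Finset J).offDiag := Finset.offDiag_mono (Finset.subset_univ _)
    have h1 : ∑ x ∈ Z.offDiag, o x.1 x.2 ≤ ∑ x ∈ (univ : Finset J).offDiag, o x.1 x.2 :=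
      Finset.sum_le_sum_of_subset_of_nonneg hsub (fun x hx _ => hnn' x hx)
    have h2 : (Z.offDiag.card : ℤ) * L ≤ ∑ x ∈ Z.offDiag, 2 * o x.1 x.2 := by
      have := Finset.card_nsmul_le_sum Z.offDiag (fun x => 2 * o x.1 x.2) (L : ℤ) (by
        rintro ⟨z, z'⟩ hz
        rw [Finset.mem_offDiag] at hz
        exact hZ z hz.1 z' hz.2.1 hz.2.2)
      simpa [nsmul_eq_mul] using this
    rw [← Finset.mul_sum] at h2
    rw [Finset.offDiag_card, hZc] at h2
    have h3 : (CP.card : ℤ) ≤ 2 * ((X.card * X.card - X.card : ℕ) : ℤ) := by exact_mod_cast hCPcard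
    have h4 : (L : ℤ) * CP.card ≤ L * (2 * ((X.card * X.card - X.card : ℕ) : ℤ)) :=
      mul_le_mul_of_nonneg_left h3 (by omega)
    nlinarith

end Pool.Agent.Q121.SP
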