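import Pool.Agent.Q41.SP.Stm2
import Pool.Agent.W277.UH.L8

/-!
# Truncated energies and minimal rational coordinates for a general family
-/

namespace Pool.Agent.Q121.SP

open Pool.Agent.W277.UG Pool.Agent.W277.UH Finset

section energy

variable {Ω : Type*} [NormedField Ω] [IsUltrametricDist Ω]

/-- **Energy inequality**, truncated. -/
theorem energyT {ι : Type*} [Fintype ι] [Nonempty ι] [DecidableEq ι] (B : Fam Ω) (H : HS Ω)
    (p : ι → Ω × Ω) (hp : ∀ i, ‖p i‖ = 1) (hpp : ∀ i j, i ≠ j → wd (p i) (p j) ≠ 0) (T : ℝ)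
    (hT0 : 0 ≤ T) (hT : ∀ i, -Real.log ‖H.F (p i)‖ + Real.log H.gs ≤ T) :
    0 ≤ (∑ i, ∑ j, if i = j then 0 else min (-Real.log ‖wd (p i) (p j)‖) T) /
        (Fintype.card ι : ℝ) ^ 2 +
      T / Fintype.card ι + 2 / (Fintype.card ι * H.d) * ∑ i, Real.log ‖H.F (p i)‖ +
      H.Res / (H.d : ℝ) ^ 2 := by
  classical
  set N : ℝ := (Fintype.card ι : ℝ) with hN
  have hNpos : 0 < N := by rw [hN]; exact_mod_cast Fintype.card_pos
  set D : ℝ := (H.d : ℝ) with hD
  have hDpos : 0 < D := by rw [hD]; exact_mod_cast H.hd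
  set Ep := ∑ i, ∑ j, if i = j then 0 else min (-Real.log ‖wd (p i) (p j)‖) T with hEp
  set g := H.gs with hg
  obtain ⟨E1, hE1⟩ := HS.target_generic (S := H) B
  obtain ⟨E2, hE2⟩ : ∃ E2 : Finset ℕ, ∀ m, m ∉ E2 → ∀ i, ‖wd (H.F (p i)) (B.b m)‖ =
      ‖H.F (p i)‖ := by
    choose t W ht hW hWe htn using fun i => exists_unit (H.F (p i)) (H.nz _ (by
      intro h0
      have := hp i
      rw [h0] at this
      simp at this))
    obtain ⟨E2, hE2⟩ := bad_finite B (Finset.univ.image W) (by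
      intro U hU
      rw [Finset.mem_image] at hU
      obtain ⟨i, _, rfl⟩ := hU
      exact hW i)
    refine ⟨E2, fun m hm i => ?_⟩
    rw [hWe i, wd_smul_left, norm_mul, norm_smul, hW i, wd_comm, norm_neg,
      hE2 m hm _ (Finset.mem_image_of_mem _ (Finset.mem_univ i))]
  obtain ⟨φ, hφ, hφi⟩ := seq_generic (E1 ∪ E2)
  have hφ1 : ∀ m, φ m ∉ E1 := fun m h => hφ m (Finset.mem_union_left _ h)
  have hφ2 : ∀ m, φ m ∉ E2 := fun m h => hφ m (Finset.mem_union_right _ h)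
  choose c θ hθ using fun m => H.roots (B.b (φ m)) (B.unit _)
  have hθ' : ∀ m, H.IsRS (B.b (φ m)) (c m) (θ m) := fun m => hθ m
  have hc : ∀ m, ‖c m‖ = g := fun m => hE1 _ (hφ1 m) _ _ (hθ' m)
  have key : ∀ M : ℕ, 0 < M → -(Ep / N ^ 2 + T / N +
      2 / (N * D) * ∑ i, Real.log ‖H.F (p i)‖ + H.Res / D ^ 2) ≤ 0 +
      (T - (H.Res + 2 * D * Real.log g) / D ^ 2) / M := by
    intro M hM
    have hMpos : (0 : ℝ) < M := by exact_mod_cast hM
    have h1 := kw_psd T hT0 (Sum.elim p (fun q : Fin M × Fin H.d => θ q.1.1 q.2)) (by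
      rintro (i | q)
      · exact hp i
      · exact (hθ' _).2.1 _)
      (Sum.elim (fun _ => 1 / N) (fun _ => -(1 / (M * D))))
    simp only [Fintype.sum_sum_type, Sum.elim_inl, Sum.elim_inr] at h1
    -- the cross sums
    have hcross : ∀ i, ∑ q : Fin M × Fin H.d, kw T (p i) (θ q.1.1 q.2) =
        M * (-Real.log ‖H.F (p i)‖ + Real.log g) := by
      intro i
      rw [Fintype.sum_prod_type]
      have : ∀ m : Fin M, ∑ l, kw T (p i) (θ m.1 l) = -Real.log ‖H.F (p i)‖ + Real.log g := by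
        intro m
        have e1 := hE2 _ (hφ2 m.1) i
        have h2 := HS.sum_kw_eq (hθ' m.1) (hp i) (by rw [e1]; exact HS.F_pos _ (hp i)) T (by
          rw [e1, hc]
          exact hT i)
        rw [h2, e1, hc]
      simp_rw [this]
      rw [Finset.sum_const, Finset.card_univ, Fintype.card_fin, nsmul_eq_mul]
    have hcross' : ∀ i, ∑ q : Fin M × Fin H.d, kw T (θ q.1.1 q.2) (p i) =
        M * (-Real.log ‖H.F (p i)‖ + Real.log g) := by
      intro i
      rw [← hcross i]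
      exact Finset.sum_congr rfl fun q _ => kw_symm T _ _
    have hself : ∑ i, ∑ j, kw T (p i) (p j) ≤ Ep + N * T := by
      have : ∀ i j, kw T (p i) (p j) ≤ (if i = j then 0 else min (-Real.log ‖wd (p i) (p j)‖) T) +
          if i = j then T else 0 := by
        intro i j
        by_cases hij : i = j
        · simp only [hij, if_true, zero_add]
          exact kw_le T _ _
        · simp only [hij, if_false, add_zero]
          exact (kw_ne (hpp i j hij)).le
      refine (Finset.sum_le_sum fun i _ => Finset.sum_le_sum fun j _ => this i j).trans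
        (le_of_eq ?_)
      simp only [Finset.sum_add_distrib, Finset.sum_ite_eq, Finset.mem_univ, if_true,
        Finset.sum_const, Finset.card_univ, nsmul_eq_mul]
      rw [← hEp, ← hN]
    have hθθ : ∑ q : Fin M × Fin H.d, ∑ q' : Fin M × Fin H.d,
        kw T (θ q.1.1 q.2) (θ q'.1.1 q'.2) ≤
        M * (M - 1) * (H.Res + 2 * D * Real.log g) + M * (D ^ 2 * T) := by
      have h2 : ∀ m m' : Fin M, ∑ l, ∑ l', kw T (θ m.1 l) (θ m'.1 l') ≤
          (H.Res + 2 * D * Real.log g) +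
          if m = m' then (D ^ 2 * T - (H.Res + 2 * D * Real.log g)) else 0 := by
        intro m m'
        by_cases hmm : m = m'
        · rw [if_pos hmm]
          have : ∑ l, ∑ l', kw T (θ m.1 l) (θ m'.1 l') ≤ D ^ 2 * T := by
            refine (Finset.sum_le_sum fun l _ => Finset.sum_le_sum fun l' _ =>
              kw_le T _ _).trans (le_of_eq ?_)
            simp only [Finset.sum_const, Finset.card_univ, Fintype.card_fin, nsmul_eq_mul]
            rw [← hD]
            ring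
          linarith
        · rw [if_neg hmm, add_zero]
          have hne : φ m.1 ≠ φ m'.1 := hφi _ _ fun h => hmm (Fin.ext h)
          exact HS.block_le g (hθ' m.1) (hθ' m'.1) (B.unit _) (B.sep _ _ hne) (hc _) (hc _) T
      have h3 : ∑ q : Fin M × Fin H.d, ∑ q' : Fin M × Fin H.d,
          kw T (θ q.1.1 q.2) (θ q'.1.1 q'.2) =
          ∑ m : Fin M, ∑ m' : Fin M, ∑ l, ∑ l', kw T (θ m.1 l) (θ m'.1 l') := by
        rw [Fintype.sum_prod_type]
        apply Finset.sum_congr rfl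
        intro m _
        simp_rw [Fintype.sum_prod_type]
        rw [Finset.sum_comm]
      rw [h3]
      refine (Finset.sum_le_sum fun m _ => Finset.sum_le_sum fun m' _ => h2 m m').trans
        (le_of_eq ?_)
      simp only [Finset.sum_add_distrib, Finset.sum_ite_eq, Finset.mem_univ, if_true,
        Finset.sum_const, Finset.card_univ, Fintype.card_fin, nsmul_eq_mul]
      ring
    -- assemble
    have e1 : ∑ i, (∑ j, 1 / N * (1 / N) * kw T (p i) (p j) +
        ∑ q : Fin M × Fin H.d, 1 / N * -(1 / (M * D)) * kw T (p i) (θ q.1.1 q.2)) +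
        ∑ q : Fin M × Fin H.d, (∑ i, -(1 / (M * D)) * (1 / N) * kw T (θ q.1.1 q.2) (p i) +
        ∑ q' : Fin M × Fin H.d, -(1 / (M * D)) * -(1 / (M * D)) *
          kw T (θ q.1.1 q.2) (θ q'.1.1 q'.2)) =
        (1 / N) ^ 2 * ∑ i, ∑ j, kw T (p i) (p j) -
        2 * (1 / N * (1 / (M * D))) * ∑ i, (M * (-Real.log ‖H.F (p i)‖ + Real.log g)) +
        (1 / (M * D)) ^ 2 * ∑ q : Fin M × Fin H.d, ∑ q' : Fin M × Fin H.d,
          kw T (θ q.1.1 q.2) (θ q'.1.1 q'.2) := by
      have a1 : ∑ q : Fin M × Fin H.d, ∑ i, -(1 / (M * D)) * (1 / N) *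
          kw T (θ q.1.1 q.2) (p i) = -(1 / (M * D)) * (1 / N) *
          ∑ i, (M * (-Real.log ‖H.F (p i)‖ + Real.log g)) := by
        rw [Finset.sum_comm, Finset.mul_sum]
        apply Finset.sum_congr rfl
        intro i _
        rw [← Finset.mul_sum, hcross']
      rw [Finset.sum_add_distrib, Finset.sum_add_distrib, a1]
      simp_rw [← Finset.mul_sum, hcross]
      rw [← Finset.mul_sum]
      ring
    rw [e1] at h1
    have h2 : (1 / N) ^ 2 * ∑ i, ∑ j, kw T (p i) (p j) ≤ (1 / N) ^ 2 * (Ep + N * T) :=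
      mul_le_mul_of_nonneg_left hself (sq_nonneg _)
    have h3 := mul_le_mul_of_nonneg_left hθθ (sq_nonneg (1 / ((M : ℝ) * D)))
    have h4 : ∑ i, ((M : ℝ) * (-Real.log ‖H.F (p i)‖ + Real.log g)) =
        M * (-∑ i, Real.log ‖H.F (p i)‖ + N * Real.log g) := by
      rw [← Finset.mul_sum, Finset.sum_add_distrib, Finset.sum_neg_distrib, Finset.sum_const,
        Finset.card_univ, nsmul_eq_mul]
    rw [h4] at h1
    have h5 : 0 ≤ (1 / N) ^ 2 * (Ep + N * T) -
        2 * (1 / N * (1 / (M * D))) * (M * (-∑ i, Real.log ‖H.F (p i)‖ + N * Real.log g)) +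
        (1 / (M * D)) ^ 2 * (M * (M - 1) * (H.Res + 2 * D * Real.log g) + M * (D ^ 2 * T)) := by
      linarith
    have h6 : (1 / N) ^ 2 * (Ep + N * T) -
        2 * (1 / N * (1 / (M * D))) * (M * (-∑ i, Real.log ‖H.F (p i)‖ + N * Real.log g)) +
        (1 / (M * D)) ^ 2 * (M * (M - 1) * (H.Res + 2 * D * Real.log g) + M * (D ^ 2 * T)) =
        (Ep / N ^ 2 + T / N + 2 / (N * D) * ∑ i, Real.log ‖H.F (p i)‖ + H.Res / D ^ 2) +
        (T - (H.Res + 2 * D * Real.log g) / D ^ 2) / M := by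
      field_simp
      ring
    rw [h6] at h5
    linarith
  have := Sys.limit_le key
  linarith



end energy

section fam

variable {Ω : Type*} [NormedField Ω] [IsUltrametricDist Ω]

/-- a family from infinitely many constants -/
lemma exists_fam' (k : Type*) [Field k] [Infinite k] [Algebra k Ω]
    (hk : ∀ c : k, c ≠ 0 → ‖algebraMap k Ω c‖ = 1) :
    ∃ (c : ℕ → k) (B : Fam Ω), ∀ i, B.b i = (algebraMap k Ω (c i), 1) := by
  refine ⟨Infinite.natEmbedding k, ⟨fun i => (algebraMap k Ω (Infinite.natEmbedding k i), 1),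
    ?_, ?_⟩, fun _ => rfl⟩
  · intro i
    apply norm_pair_one
    by_cases hi : Infinite.natEmbedding k i = 0
    · rw [hi]; simp
    · exact (hk _ hi).le
  · intro i j hij
    unfold wd
    simp only [mul_one, one_mul]
    rw [← map_sub]
    apply hk
    intro h
    exact hij ((Infinite.natEmbedding k).injective (sub_eq_zero.mp h))

variable {K : Type*} [Field K] {ι : K →+* Ω} {S₀ S : HS Ω}

lemma exists_scale' (B : Fam Ω) (Z : ℕ → K × K) (hB : ∀ i, B.b i = vm ι (Z i))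
    (hrat : ∀ X : K × K, ∃ Y : K × K, S₀.F (vm ι X) = vm ι Y) (hK : Kr ι S₀ S) {X X' : K × K}
    (hw : wd (vm ι X) (vm ι X') ≠ 0) :
    ∃ (s₂ : K) (hs₂ : ι s₂ ≠ 0), (S.conj (vm ι X) (vm ι X') hw (ι s₂) hs₂).gs = 1 := by
  have h1 : ι (1 : K) ≠ 0 := by rw [map_one]; exact one_ne_zero
  have hK1 := Kr_conj hK hw 1 h1
  obtain ⟨E1, hE1⟩ := HS.gs_attained (S := S.conj (vm ι X) (vm ι X') hw (ι 1) h1) B
  obtain ⟨i, hi⟩ := Infinite.exists_notMem_finset E1
  obtain ⟨Y, hY⟩ := Kr_rat hrat hK1 (Z i)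
  have hne : Y ≠ 0 := by
    rintro rfl
    have h2 := HS.F_pos (S := S.conj (vm ι X) (vm ι X') hw (ι 1) h1) _ (B.unit i)
    rw [hB i, hY] at h2
    unfold vm at h2
    simp at h2
  obtain ⟨t, Y', ht, hY', hYe⟩ := exists_unitK ι Y hne
  have hs₂ : ι (t⁻¹) ≠ 0 := (map_ne_zero ι).mpr (inv_ne_zero ht)
  refine ⟨t⁻¹, hs₂, ?_⟩
  obtain ⟨E2, hE2⟩ := HS.gs_attained (S := S.conj (vm ι X) (vm ι X') hw (ι t⁻¹) hs₂) B
  obtain ⟨j, hj⟩ := Infinite.exists_notMem_finset (E1 ∪ E2)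
  rw [Finset.mem_union, not_or] at hj
  rw [← hE2 j hj.2]
  have e1 : (S.conj (vm ι X) (vm ι X') hw (ι t⁻¹) hs₂).F (B.b j) =
      ι t⁻¹ • (S.conj (vm ι X) (vm ι X') hw (ι 1) h1).F (B.b j) := by
    show ι t⁻¹ • gi _ _ _ = ι t⁻¹ • (ι 1 • gi _ _ _)
    rw [map_one, one_smul]
  rw [e1, norm_smul, hE1 j hj.1, ← hE1 i hi, hB i, hY, hYe, vm_smul, norm_smul, hY', mul_one,
    ← norm_mul, ← map_mul, inv_mul_cancel₀ ht, map_one, norm_one]

/-- **Minimal rational coordinates.** -/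
theorem exists_minimal' (B : Fam Ω) (Z : ℕ → K × K) (hB : ∀ i, B.b i = vm ι (Z i))
    (hrat : ∀ X : K × K, ∃ Y : K × K, S₀.F (vm ι X) = vm ι Y)
    (hint : ∀ S, Kr ι S₀ S → ∃ m : ℤ, S.Res = m) :
    ∃ (S : HS Ω) (R : ℕ), Kr ι S₀ S ∧ S.gs = 1 ∧ S.Res = R ∧
      ∀ S', Kr ι S₀ S' → S'.gs = 1 → S.Res ≤ S'.Res := by
  classical
  have hnn : ∀ S, Kr ι S₀ S → S.gs = 1 → ∃ m : ℕ, S.Res = m := by
    intro S hK hg
    obtain ⟨m, hm⟩ := hint S hK
    have h0 := HS.Res_nonneg B hg.le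
    rw [hm] at h0
    have h1 : 0 ≤ m := by exact_mod_cast h0
    refine ⟨m.toNat, ?_⟩
    rw [hm]
    have := Int.toNat_of_nonneg h1
    exact_mod_cast this.symm
  have hex : ∃ m : ℕ, ∃ S, Kr ι S₀ S ∧ S.gs = 1 ∧ S.Res = m := by
    have hw : wd ((1, 0) : K × K) (0, 1) = 1 := by unfold wd; simp
    have hw' : wd (vm ι (1, 0)) (vm ι (0, 1)) ≠ 0 := by
      rw [vm_wd, hw, map_one]
      exact one_ne_zero
    have hK₀ : Kr ι S₀ S₀ := by
      refine ⟨(1, 0), (0, 1), 1, by rw [hw]; exact one_ne_zero, one_ne_zero, rfl, ?_, ?_⟩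
      · intro X
        have e1 : ∀ Z : Ω × Ω, gm (vm ι (1, 0)) (vm ι (0, 1)) Z = Z := by
          intro Z
          unfold gm vm
          ext <;> simp
        have e2 : ∀ Z : Ω × Ω, gi (vm ι (1, 0)) (vm ι (0, 1)) Z = Z := by
          intro Z
          have := gi_gm hw' Z
          rwa [e1] at this
        rw [e1, e2, map_one, one_smul]
      · rw [hw, map_one, norm_one, Real.log_one]
        ring
    obtain ⟨s₂, hs₂, hg⟩ := exists_scale' B Z hB hrat hK₀ hw'
    have hK₁ := Kr_conj hK₀ hw' s₂ hs₂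
    obtain ⟨m, hm⟩ := hnn _ hK₁ hg
    exact ⟨m, _, hK₁, hg, hm⟩
  obtain ⟨S, hK, hg, hR⟩ := Nat.find_spec hex
  refine ⟨S, Nat.find hex, hK, hg, hR, ?_⟩
  intro S' hK' hg'
  obtain ⟨m, hm⟩ := hnn S' hK' hg'
  rw [hR, hm]
  exact_mod_cast Nat.find_min' hex ⟨S', hK', hg', hm⟩



end fam

end Pool.Agent.Q121.SP
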