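import Pool.Agent.Q62.SP.Stm
import Pool.Agent.W585.Flow

set_option autoImplicit false

open Set Filter Topology
open scoped ContDiff

namespace Pool.Agent.Q121.SP.Flo

open Pool.Agent.Q62.SP

theorem t_FLO (hp1 : S_YSM) (hp2 : S_YBD) : S_FLO := by
  set Y : EuclideanSpace ℝ (Fin 2) × ℝ → EuclideanSpace ℝ (Fin 2) :=
    fun p => !₂[YA (p.1 0) (p.1 1) p.2, YB (p.1 0) (p.1 1) p.2] with hY
  have e0 : ∀ p, Y p 0 = YA (p.1 0) (p.1 1) p.2 := fun p => by simp [hY]
  have e1 : ∀ p, Y p 1 = YB (p.1 0) (p.1 1) p.2 := fun p => by simp [hY]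
  have hpr : ∀ i : Fin 2, ContDiff ℝ ∞ (fun p : EuclideanSpace ℝ (Fin 2) × ℝ => p.1 i) := fun i =>
    (EuclideanSpace.proj i : EuclideanSpace ℝ (Fin 2) →L[ℝ] ℝ).contDiff.comp contDiff_fst
  have hm : ContDiff ℝ ∞ (fun p : EuclideanSpace ℝ (Fin 2) × ℝ => (p.1 0, p.1 1, p.2)) :=
    (hpr 0).prodMk ((hpr 1).prodMk contDiff_snd)
  have hYs : ContDiff ℝ ∞ Y := by
    rw [contDiff_euclidean]
    intro i
    fin_cases i
    · have h := hp1.1.comp hm
      have h' : (fun p => Y p 0) = (fun z : ℝ × ℝ × ℝ => YA z.1 z.2.1 z.2.2) ∘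
        (fun p : EuclideanSpace ℝ (Fin 2) × ℝ => (p.1 0, p.1 1, p.2)) := funext e0
      show ContDiff ℝ ∞ (fun p => Y p 0)
      rw [h']
      exact h
    · have h := hp1.2.comp hm
      have h' : (fun p => Y p 1) = (fun z : ℝ × ℝ × ℝ => YB z.1 z.2.1 z.2.2) ∘
        (fun p : EuclideanSpace ℝ (Fin 2) × ℝ => (p.1 0, p.1 1, p.2)) := funext e1
      show ContDiff ℝ ∞ (fun p => Y p 1)
      rw [h']
      exact h
  have hb : ∀ x s, |inner ℝ x (Y (x, s))| ≤ 1 * ‖x‖ ^ 2 := by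
    intro x s
    have h1 := (hp2.1 (x 0) (x 1) s).1
    have h2 := (hp2.1 (x 0) (x 1) s).2
    have h3 : inner ℝ x (Y (x, s)) = x 0 * YA (x 0) (x 1) s + x 1 * YB (x 0) (x 1) s := by
      rw [PiLp.inner_apply, Fin.sum_univ_two, e0, e1]
      simp only [RCLike.inner_apply, conj_trivial]
      ring
    rw [h3, EuclideanSpace.norm_sq_eq, Fin.sum_univ_two, one_mul]
    simp only [Real.norm_eq_abs]
    calc |x 0 * YA (x 0) (x 1) s + x 1 * YB (x 0) (x 1) s|
        ≤ |x 0| * |YA (x 0) (x 1) s| + |x 1| * |YB (x 0) (x 1) s| := by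
          rw [← abs_mul, ← abs_mul]; exact abs_add_le _ _
      _ ≤ |x 0| * |x 0| + |x 1| * |x 1| := by gcongr
      _ = |x 0| ^ 2 + |x 1| ^ 2 := by ring
  obtain ⟨Q, hQ, hQ0, hQd, hQg⟩ := Pool.Agent.W585.exists_td_flow hYs zero_le_one hb
  have hv : ContDiff ℝ ∞ (fun z : ℝ × ℝ × ℝ × ℝ =>
      (((!₂[z.1, z.2.1] : EuclideanSpace ℝ (Fin 2)), z.2.2.1), z.2.2.2 - z.2.2.1)) := by
    refine ContDiff.prodMk (ContDiff.prodMk ?_ ?_) ?_
    · rw [contDiff_euclidean]
      intro i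
      fin_cases i
      · show ContDiff ℝ ∞ (fun z : ℝ × ℝ × ℝ × ℝ => z.1)
        exact contDiff_fst
      · show ContDiff ℝ ∞ (fun z : ℝ × ℝ × ℝ × ℝ => z.2.1)
        exact contDiff_fst.comp contDiff_snd
    · exact contDiff_fst.comp (contDiff_snd.comp contDiff_snd)
    · exact (contDiff_snd.comp (contDiff_snd.comp contDiff_snd)).sub
        (contDiff_fst.comp (contDiff_snd.comp contDiff_snd))
  refine ⟨fun a b s r => ((Q !₂[a, b] s (r - s)) 0, (Q !₂[a, b] s (r - s)) 1), ?_, ?_, ?_, ?_⟩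
  · have h := hQ.comp hv
    rw [contDiff_euclidean] at h
    exact (h 0).prodMk (h 1)
  · intro a b s
    simp only [sub_self]
    rw [hQ0]
    simp
  · intro a b s r
    have h := (hQd !₂[a, b] s (r - s)).comp_sub_const r s
    have h0 := (EuclideanSpace.proj (0 : Fin 2) :
      EuclideanSpace ℝ (Fin 2) →L[ℝ] ℝ).hasFDerivAt.comp_hasDerivAt r h
    have h1 := (EuclideanSpace.proj (1 : Fin 2) :
      EuclideanSpace ℝ (Fin 2) →L[ℝ] ℝ).hasFDerivAt.comp_hasDerivAt r h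
    have hs : s + (r - s) = r := by ring
    constructor
    · have h2 : HasDerivAt (fun r => (Q !₂[a, b] s (r - s)) 0)
          (Y (Q !₂[a, b] s (r - s), s + (r - s)) 0) r := h0
      rw [e0, hs] at h2
      exact h2
    · have h2 : HasDerivAt (fun r => (Q !₂[a, b] s (r - s)) 1)
          (Y (Q !₂[a, b] s (r - s), s + (r - s)) 1) r := h1
      rw [e1, hs] at h2
      exact h2
  · intro a b s r r'
    have hx : (!₂[(Q !₂[a, b] s (r - s)) 0, (Q !₂[a, b] s (r - s)) 1] : EuclideanSpace ℝ (Fin 2))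
        = Q !₂[a, b] s (r - s) := by
      ext i
      fin_cases i <;> simp
    have h := hQg !₂[a, b] s (r - s) (r' - r)
    have hs : s + (r - s) = r := by ring
    have hs' : r - s + (r' - r) = r' - s := by ring
    rw [hs, hs'] at h
    simp only
    rw [hx, h]

end Pool.Agent.Q121.SP.Flo
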