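import Pool.Agent.Q62.SP.Stm

set_option autoImplicit false

open Set Filter Topology
open scoped ContDiff NNReal

namespace Pool.Agent.Q121.SP.Unc

open Pool.Agent.Q62.SP

theorem t_UNC (hp1 : S_YSM) : S_UNC := by
  intro x y x' y' h h' s hx hy r
  -- the vector field
  set F : ℝ × ℝ × ℝ → ℝ × ℝ := fun z => (YA z.1 z.2.1 z.2.2, YB z.1 z.2.1 z.2.2) with hF
  have hFs : ContDiff ℝ ∞ F := hp1.1.prodMk hp1.2
  set v : ℝ → ℝ × ℝ → ℝ × ℝ := fun t p => F (p.1, p.2, t) with hv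
  set f : ℝ → ℝ × ℝ := fun t => (x t, y t) with hf
  set g : ℝ → ℝ × ℝ := fun t => (x' t, y' t) with hg
  have hfd : ∀ t, HasDerivAt f (v t (f t)) t := fun t => (h t).1.prodMk (h t).2
  have hgd : ∀ t, HasDerivAt g (v t (g t)) t := fun t => (h' t).1.prodMk (h' t).2
  have hfc : Continuous f := continuous_iff_continuousAt.2 fun t => (hfd t).continuousAt
  have hgc : Continuous g := continuous_iff_continuousAt.2 fun t => (hgd t).continuousAt
  set T : ℝ := |s| + |r| + 1 with hT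
  have hTs : s ∈ Ioo (-T) T := by
    have h1 := abs_nonneg s
    have h2 := abs_nonneg r
    constructor
    · have := neg_abs_le s
      linarith
    · have := le_abs_self s
      linarith
  have hTr : r ∈ Ioo (-T) T := by
    have h1 := abs_nonneg s
    have h2 := abs_nonneg r
    constructor
    · have := neg_abs_le r
      linarith
    · have := le_abs_self r
      linarith
  obtain ⟨C1, hC1⟩ := isCompact_Icc.exists_bound_of_continuousOn
    (hfc.continuousOn (s := Icc (-T) T))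
  obtain ⟨C2, hC2⟩ := isCompact_Icc.exists_bound_of_continuousOn
    (hgc.continuousOn (s := Icc (-T) T))
  set R : ℝ := max C1 C2 with hR
  set K0 : Set (ℝ × ℝ × ℝ) := Icc (-R) R ×ˢ (Icc (-R) R ×ˢ Icc (-T) T) with hK0
  have hconv : Convex ℝ K0 := (convex_Icc _ _).prod ((convex_Icc _ _).prod (convex_Icc _ _))
  have hcomp : IsCompact K0 := isCompact_Icc.prod (isCompact_Icc.prod isCompact_Icc)
  obtain ⟨K, hK⟩ := ContDiffOn.exists_lipschitzOnWith hFs.contDiffOn (by simp) hconv hcomp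
  have hmem : ∀ (p : ℝ × ℝ), ‖p‖ ≤ R → p ∈ Icc (-R) R ×ˢ Icc (-R) R := by
    intro p hp
    have h1 : ‖p.1‖ ≤ R := (norm_fst_le p).trans hp
    have h2 : ‖p.2‖ ≤ R := (norm_snd_le p).trans hp
    rw [Real.norm_eq_abs] at h1 h2
    exact ⟨abs_le.1 h1, abs_le.1 h2⟩
  have hlip : ∀ t ∈ Ioo (-T) T, LipschitzOnWith K (v t) (Icc (-R) R ×ˢ Icc (-R) R) := by
    intro t ht
    have h1 : LipschitzOnWith 1 (fun p : ℝ × ℝ => ((p.1, p.2, t) : ℝ × ℝ × ℝ))
        (Icc (-R) R ×ˢ Icc (-R) R) := by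
      intro p _ q _
      rw [ENNReal.coe_one, one_mul]
      simp [Prod.edist_eq]
    have h2 : MapsTo (fun p : ℝ × ℝ => ((p.1, p.2, t) : ℝ × ℝ × ℝ))
        (Icc (-R) R ×ˢ Icc (-R) R) K0 := by
      intro p hp
      exact ⟨hp.1, hp.2, Ioo_subset_Icc_self ht⟩
    have h3 := hK.comp h1 h2
    rw [mul_one] at h3
    exact h3
  have hun := ODE_solution_unique_of_mem_Ioo (s := fun _ => Icc (-R) R ×ˢ Icc (-R) R) hlip hTs
    (fun t ht => ⟨hfd t, hmem _ ((hC1 t (Ioo_subset_Icc_self ht)).trans (le_max_left _ _))⟩)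
    (fun t ht => ⟨hgd t, hmem _ ((hC2 t (Ioo_subset_Icc_self ht)).trans (le_max_right _ _))⟩)
    (show f s = g s by simp only [hf, hg, hx, hy])
  have h1 := hun hTr
  simp only [hf, hg, Prod.mk.injEq] at h1
  exact h1

end Pool.Agent.Q121.SP.Unc
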